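import Pool.Agent.Helper88.RR.Goals
import Pool.Agent.Helper24.PP.MA
import Pool.Agent.Helper74.PP.TLa
import Pool.Agent.Helper3.PP.TS

/-! The second moment of a function given by labels, with growing parameters. -/

set_option autoImplicit false

open Finset Filter Topology

open scoped Classical

namespace Pool.Agent.Helper77.RR

open Pool.Agent.Helper88.PP (pr Rg om Sf SS uu vv ee LA VV QQ NN XX cost nc dd)

open Pool.Agent.Helper88.RR

open Pool.Agent.Helper3.PP (om_nonneg XX_nonneg VV_nonneg mem_SS mem_LA LA_sub sumBB)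

theorem VM_nonneg (M z : ℕ) : 0 ≤ VM M z := by
  unfold VM
  positivity

theorem ab_nonneg (m q z r : ℕ) : 0 ≤ ab m q z r := by
  unfold ab
  have := VV_nonneg z m (q * m)
  positivity

/-- the exponential beats everything -/
theorem expo (c L : ℝ) (hc : 0 < c) (hL : 0 ≤ L) :
    ∃ E1 : ℕ, ∀ E K : ℕ, E1 ≤ E → K ^ 3 ≤ E →
      (1 + 36 * (E : ℝ)) * ((1 + L * (E : ℝ) ^ 3) *
        (1 + (E : ℝ) ^ 2 * (L * (E : ℝ) ^ 3)) ^ (2 * K)) ≤ Real.exp (c * E) := by
  have h1 : ∀ᶠ t : ℝ in atTop, ‖Real.log t‖ ≤ c / 18 * ‖t ^ ((2 : ℝ) / 3)‖ :=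
    (isLittleO_log_rpow_atTop (by norm_num : (0 : ℝ) < 2 / 3)).bound (by positivity)
  have h2 := tendsto_natCast_atTop_atTop (R := ℝ) |>.eventually h1
  obtain ⟨E2, hE2⟩ := eventually_atTop.mp h2
  refine ⟨max E2 (max 37 (⌈1 + L⌉₊)), fun E K hE hK => ?_⟩
  have hE3 : E2 ≤ E := (le_max_left _ _).trans hE
  have hE4 : 37 ≤ E := ((le_max_left _ _).trans (le_max_right _ _)).trans hE
  have hE5 : ⌈1 + L⌉₊ ≤ E := ((le_max_right _ _).trans (le_max_right _ _)).trans hE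
  have hL' : 1 + L ≤ E := (Nat.le_ceil _).trans (by exact_mod_cast hE5)
  have hEr : (37 : ℝ) ≤ E := by exact_mod_cast hE4
  have hE0 : (0 : ℝ) < E := by linarith
  have hE1 : (1 : ℝ) ≤ E := by linarith
  have b1 : 1 + 36 * (E : ℝ) ≤ (E : ℝ) ^ 2 := by nlinarith
  have e3 : (1 : ℝ) ≤ (E : ℝ) ^ 3 := one_le_pow₀ hE1
  have e5 : (1 : ℝ) ≤ (E : ℝ) ^ 5 := one_le_pow₀ hE1
  have b2 : 1 + L * (E : ℝ) ^ 3 ≤ (E : ℝ) ^ 4 := by
    calc 1 + L * (E : ℝ) ^ 3 ≤ (1 + L) * (E : ℝ) ^ 3 := by nlinarith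
      _ ≤ E * (E : ℝ) ^ 3 := mul_le_mul_of_nonneg_right hL' (by positivity)
      _ = (E : ℝ) ^ 4 := by ring
  have b3 : 1 + (E : ℝ) ^ 2 * (L * (E : ℝ) ^ 3) ≤ (E : ℝ) ^ 6 := by
    calc 1 + (E : ℝ) ^ 2 * (L * (E : ℝ) ^ 3) = 1 + L * (E : ℝ) ^ 5 := by ring
      _ ≤ (1 + L) * (E : ℝ) ^ 5 := by nlinarith
      _ ≤ E * (E : ℝ) ^ 5 := mul_le_mul_of_nonneg_right hL' (by positivity)
      _ = (E : ℝ) ^ 6 := by ring
  have b4 : (1 + 36 * (E : ℝ)) * ((1 + L * (E : ℝ) ^ 3) *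
        (1 + (E : ℝ) ^ 2 * (L * (E : ℝ) ^ 3)) ^ (2 * K)) ≤ (E : ℝ) ^ (6 + 12 * K) := by
    calc (1 + 36 * (E : ℝ)) * ((1 + L * (E : ℝ) ^ 3) *
        (1 + (E : ℝ) ^ 2 * (L * (E : ℝ) ^ 3)) ^ (2 * K))
        ≤ (E : ℝ) ^ 2 * ((E : ℝ) ^ 4 * ((E : ℝ) ^ 6) ^ (2 * K)) := by
          gcongr
      _ = (E : ℝ) ^ (6 + 12 * K) := by
          rw [← pow_mul, ← pow_add, ← pow_add]
          congr 1
          ring
  refine b4.trans ?_
  have hlog : Real.log E ≤ c / 18 * (E : ℝ) ^ ((2 : ℝ) / 3) := by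
    have h3 := hE2 E hE3
    rw [Real.norm_eq_abs, Real.norm_eq_abs, abs_of_nonneg (Real.log_nonneg hE1),
      abs_of_nonneg (Real.rpow_nonneg hE0.le _)] at h3
    exact h3
  set k : ℕ := max 1 K with hk
  have hk3 : k ^ 3 ≤ E := by
    rcases le_total 1 K with h | h
    · rw [hk, max_eq_right h]
      exact hK
    · rw [hk, max_eq_left h]
      omega
  have hkr : (k : ℝ) ≤ (E : ℝ) ^ ((1 : ℝ) / 3) := by
    have h4 : ((k : ℝ) ^ 3) ^ ((1 : ℝ) / 3) ≤ (E : ℝ) ^ ((1 : ℝ) / 3) :=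
      Real.rpow_le_rpow (by positivity) (by exact_mod_cast hk3) (by norm_num)
    have h5 : ((k : ℝ) ^ 3) ^ ((1 : ℝ) / 3) = k := by
      rw [← Real.rpow_natCast, ← Real.rpow_mul (by positivity)]
      norm_num
    rwa [h5] at h4
  have hkK : 6 + 12 * K ≤ 18 * k := by
    have h6 : 1 ≤ k := le_max_left _ _
    have h7 : K ≤ k := le_max_right _ _
    omega
  have hlog0 := Real.log_nonneg hE1
  rw [← Real.exp_log (pow_pos hE0 _), Real.log_pow]
  refine Real.exp_le_exp.mpr ?_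
  calc ((6 + 12 * K : ℕ) : ℝ) * Real.log E ≤ ((18 * k : ℕ) : ℝ) * Real.log E :=
        mul_le_mul_of_nonneg_right (by exact_mod_cast hkK) hlog0
    _ = 18 * ((k : ℝ) * Real.log E) := by push_cast; ring
    _ ≤ 18 * ((E : ℝ) ^ ((1 : ℝ) / 3) * (c / 18 * (E : ℝ) ^ ((2 : ℝ) / 3))) := by
        gcongr
    _ = c * ((E : ℝ) ^ ((1 : ℝ) / 3) * (E : ℝ) ^ ((2 : ℝ) / 3)) := by ring
    _ = c * E := by
        rw [← Real.rpow_add hE0]
        norm_num

/-- from sets of points to divisor label functions -/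
theorem tlc {z x y b K D : ℕ} {P : Finset ℕ} {δ : ℝ} (hP : P ⊆ Icc 1 y)
    (h : ∀ B : Finset ℕ, B ⊆ Icc 1 y → B.card ≤ K → ∀ d : ℕ → ℕ, (∀ i ∈ B, Sf z (d i)) →
      ∏ i ∈ B, d i ≤ D →
      ((∀ i ∈ B, ∀ j ∈ B, i ≠ j → Nat.Coprime (d i) (d j)) →
        |(((NN x b).filter (fun n => ∀ i ∈ B, d i ∣ n + i ∧ Rg y z (n + i))).card : ℝ)
          - XX x * (gg y z B.card * ∏ i ∈ B, (1 / (d i : ℝ)))|
          ≤ δ * (XX x * ∏ i ∈ B, (om y z / d i)))
      ∧ (¬ (∀ i ∈ B, ∀ j ∈ B, i ≠ j → Nat.Coprime (d i) (d j)) →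
        ((NN x b).filter (fun n => ∀ i ∈ B, d i ∣ n + i ∧ Rg y z (n + i))).card = 0))
    (d : P → ℕ) (hd : ∀ i, d i = 0 ∨ Sf z (d i)) (hD : ∏ i, max 1 (d i) ≤ D)
    (hK : (univ.filter (fun i => d i ≠ 0)).card ≤ K) :
    ((∀ i j, i ≠ j → d i ≠ 0 → d j ≠ 0 → Nat.Coprime (d i) (d j)) →
      |(((NN x b).filter (fun n => ∀ i, d i ≠ 0 → d i ∣ n + (i : ℕ) ∧
          Rg y z (n + (i : ℕ)))).card : ℝ)
        - XX x * (gg y z (nz d) * ∏ i, (if d i = 0 then 1 else 1 / (d i : ℝ)))|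
        ≤ δ * (XX x * ∏ i, dd (om y z) (d i)))
    ∧ (¬ (∀ i j, i ≠ j → d i ≠ 0 → d j ≠ 0 → Nat.Coprime (d i) (d j)) →
      ((NN x b).filter (fun n => ∀ i, d i ≠ 0 → d i ∣ n + (i : ℕ) ∧
        Rg y z (n + (i : ℕ)))).card = 0) := by
  set B : Finset ℕ := (univ.filter (fun i => d i ≠ 0)).map
    ⟨fun i : P => (i : ℕ), Subtype.val_injective⟩ with hB
  set d' : ℕ → ℕ := fun i => if h : i ∈ P then d ⟨i, h⟩ else 1 with hd'
  have hdd : ∀ i : P, d' i = d i := by
    intro i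
    rw [hd']
    simp
  have hmem : ∀ i : ℕ, i ∈ B ↔ ∃ j : P, d j ≠ 0 ∧ (j : ℕ) = i := by
    intro i
    rw [hB, Finset.mem_map]
    constructor
    · rintro ⟨j, hj, hj'⟩
      exact ⟨j, (Finset.mem_filter.mp hj).2, hj'⟩
    · rintro ⟨j, hj, hj'⟩
      exact ⟨j, Finset.mem_filter.mpr ⟨Finset.mem_univ _, hj⟩, hj'⟩
  have hall : ∀ p : ℕ → Prop, (∀ i ∈ B, p i) ↔ ∀ j : P, d j ≠ 0 → p (j : ℕ) := by
    intro p
    constructor
    · intro hp j hj
      exact hp _ ((hmem _).mpr ⟨j, hj, rfl⟩)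
    · intro hp i hi
      obtain ⟨j, hj, rfl⟩ := (hmem _).mp hi
      exact hp j hj
  have hprod : ∀ (M : Type) [CommMonoid M] (f : ℕ → M), ∏ i ∈ B, f i =
      ∏ i : P, if d i ≠ 0 then f i else 1 := by
    intro M _ f
    rw [hB, Finset.prod_map, Finset.prod_filter]
    rfl
  have hcop : (∀ i ∈ B, ∀ j ∈ B, i ≠ j → Nat.Coprime (d' i) (d' j)) ↔
      (∀ i j, i ≠ j → d i ≠ 0 → d j ≠ 0 → Nat.Coprime (d i) (d j)) := by
    rw [hall]
    constructor
    · intro h1 i j hij hi hj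
      have h2 := (hall _).mp (h1 i hi) j hj (fun h3 => hij (Subtype.ext h3))
      rwa [hdd, hdd] at h2
    · intro h1 i hi
      rw [hall]
      intro j hj hij
      rw [hdd, hdd]
      exact h1 i j (fun h3 => hij (by rw [h3])) hi hj
  have hfil : (NN x b).filter (fun n => ∀ i ∈ B, d' i ∣ n + i ∧ Rg y z (n + i)) =
      (NN x b).filter (fun n => ∀ i, d i ≠ 0 → d i ∣ n + (i : ℕ) ∧ Rg y z (n + (i : ℕ))) := by
    refine Finset.filter_congr fun n _ => ?_
    rw [hall]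
    refine forall_congr' fun j => ?_
    rw [hdd]
  have hpr : ∏ i ∈ B, (om y z / (d' i : ℝ)) = ∏ i, dd (om y z) (d i) := by
    rw [hprod]
    refine Finset.prod_congr rfl fun i _ => ?_
    rw [hdd]
    unfold dd
    by_cases hi : d i = 0 <;> simp [hi]
  have hpr1 : ∏ i ∈ B, (1 / (d' i : ℝ)) = ∏ i, (if d i = 0 then 1 else 1 / (d i : ℝ)) := by
    rw [hprod]
    refine Finset.prod_congr rfl fun i _ => ?_
    rw [hdd]
    by_cases hi : d i = 0 <;> simp [hi]
  have hnz : B.card = nz d := by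
    rw [hB, Finset.card_map]
    rfl
  have hsub : B ⊆ Icc 1 y := by
    intro i hi
    obtain ⟨j, _, rfl⟩ := (hmem _).mp hi
    exact hP j.2
  have hcard : B.card ≤ K := by
    rw [hB, Finset.card_map]
    exact hK
  have hsf : ∀ i ∈ B, Sf z (d' i) := by
    rw [hall]
    intro j hj
    rw [hdd]
    exact (hd j).resolve_left hj
  have hle : ∏ i ∈ B, d' i ≤ D := by
    rw [hprod]
    refine le_of_eq_of_le (Finset.prod_congr rfl fun i _ => ?_) hD
    rw [hdd]
    by_cases hi : d i = 0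
    · simp [hi]
    · rw [if_pos hi]
      exact (max_eq_right (by omega)).symm
  have key := h B hsub hcard d' hsf hle
  rw [hcop, hfil, hpr, hpr1, hnz] at key
  exact key

theorem Sr_y {E z x y : ℕ} (h : Sr E z x y) (hE : 1 ≤ E) : (E : ℝ) ^ 2 ≤ y := by
  obtain ⟨h1, _, h3, _, h5, _⟩ := h
  refine le_trans ?_ h5
  have h6 : Real.exp ((E : ℝ) ^ 2) ≤ x := by
    have h7 : ((z : ℝ)) ^ E ≤ x := by exact_mod_cast h3
    refine le_trans ?_ h7
    calc Real.exp ((E : ℝ) ^ 2) = Real.exp E ^ E := by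
          rw [← Real.exp_nat_mul]
          congr 1
          ring
      _ ≤ (z : ℝ) ^ E := pow_le_pow_left₀ (Real.exp_pos _).le h1 E
  have h8 := Real.log_le_log (Real.exp_pos _) h6
  rwa [Real.log_exp] at h8

theorem ts (h1 : StmtTL) (h2 : StmtTR) (h3 : StmtCB) : StmtTS := by
  obtain ⟨c, hc, ETL, hTL⟩ := h1
  obtain ⟨_, C', _, hC', h4⟩ := Pool.Agent.Helper24.PP.ma
  obtain ⟨C, hC, hCB⟩ := h3
  set c0 : ℝ := min c 1 / 2 with hc0
  have hc0p : 0 < c0 := by
    rw [hc0]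
    have := lt_min hc one_pos
    linarith
  have hc1 : 2 * c0 ≤ c := by
    rw [hc0]
    have := min_le_left c 1
    linarith
  have hc2 : 2 * c0 ≤ 1 := by
    rw [hc0]
    have := min_le_right c 1
    linarith
  obtain ⟨Ee, hEe⟩ := expo c0 (3 * C ^ 2 * C' ^ 3) hc0p (by positivity)
  refine ⟨c0, hc0p, max ETL (max Ee 64), fun E z x y hE hS b hb m q K hm hqm hV hK P hP hPA T cc F
    hF hT1 hT2 hT3 hT4 hT5 => ?_⟩
  have hE1 : ETL ≤ E := (le_max_left _ _).trans hE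
  have hE3 : Ee ≤ E := ((le_max_left _ _).trans (le_max_right _ _)).trans hE
  have hE4 : 64 ≤ E := ((le_max_right _ _).trans (le_max_right _ _)).trans hE
  have hM1 : 1 ≤ E / 16 := by omega
  have hEpos : (64 : ℝ) ≤ E := by exact_mod_cast hE4
  have hTL := hTL E z x y hE1 hS b hb
  -- `z`
  have hzE : Real.exp E ≤ z := hS.1
  have hzE' : (E : ℝ) + 1 ≤ z := (Real.add_one_le_exp _).trans hzE
  have hzE2 : E + 1 ≤ z := by exact_mod_cast hzE'
  have hz3 : 2 ≤ z := by omega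
  have hz0 : 1 ≤ z := by omega
  have hzp : (0 : ℝ) < z := by linarith
  -- `y`
  have hy2 := Sr_y hS (by omega)
  have hK2 : (2 * K) ^ 2 ≤ E := by
    rcases le_total 4 K with h | h
    · calc (2 * K) ^ 2 = 4 * K ^ 2 := by ring
        _ ≤ K * K ^ 2 := Nat.mul_le_mul_right _ h
        _ = K ^ 3 := by ring
        _ ≤ E := hK
    · have h5 : K ^ 2 ≤ 4 ^ 2 := Nat.pow_le_pow_left h 2
      calc (2 * K) ^ 2 = 4 * K ^ 2 := by ring
        _ ≤ 4 * 4 ^ 2 := Nat.mul_le_mul_left _ h5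
        _ ≤ E := by omega
  have hKE : 2 * K ≤ E := by nlinarith
  have hyE : E * E ≤ y := by
    have : ((E * E : ℕ) : ℝ) ≤ y := by
      push_cast
      nlinarith
    exact_mod_cast this
  have hy4 : 2 * (2 * K) ≤ y := by nlinarith
  have hy1 : 1 ≤ y := by nlinarith
  have hgg : ∀ k ≤ 2 * K, 0 ≤ gg y z k ∧ gg y z k ≤ om y z ^ k := by
    intro k hk
    have h5 := Pool.Agent.Helper74.PP.om_pow y z k hy1 (by omega)
    exact ⟨h5.2.2, h5.2.1⟩
  have hMz : E / 16 ≤ z := by omega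
  have hCB := hCB m q (E / 16) z hm hz3 hMz hV
  have hKsq : (36 : ℝ) * (K : ℝ) ^ 2 ≤ 36 * E := by
    have h5 : (K : ℝ) ^ 2 ≤ E := by
      have : K ^ 2 ≤ E := by nlinarith
      exact_mod_cast this
    linarith
  -- constants
  set Lam : ℝ := 3 * C ^ 2 * (C' * ((2 * (E / 16) : ℕ) : ℝ)) ^ 3 with hLam
  have hLam0 : 0 ≤ Lam := by positivity
  have hLamE : Lam ≤ 3 * C ^ 2 * C' ^ 3 * (E : ℝ) ^ 3 := by
    rw [hLam]
    have h5 : ((2 * (E / 16) : ℕ) : ℝ) ≤ E := by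
      have : 2 * (E / 16) ≤ E := by omega
      exact_mod_cast this
    calc 3 * C ^ 2 * (C' * ((2 * (E / 16) : ℕ) : ℝ)) ^ 3 ≤ 3 * C ^ 2 * (C' * (E : ℝ)) ^ 3 := by
          gcongr
      _ = 3 * C ^ 2 * C' ^ 3 * (E : ℝ) ^ 3 := by ring
  set G : ℝ := (1 + Lam) * (1 + (E : ℝ) ^ 2 * Lam) ^ (2 * K) with hG
  have hG0 : 0 ≤ G := by positivity
  have hGE : (1 + 36 * (E : ℝ)) * G ≤ Real.exp (c0 * E) := by
    refine le_trans ?_ (hEe E K hE3 hK)
    rw [hG]
    gcongr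
  have hfin : (Real.exp (-(c * E)) + 9 * ((2 * K : ℕ) : ℝ) ^ 2 / z) * G
      ≤ Real.exp (-(c0 * E)) := by
    have h5 : Real.exp (-(c * E)) ≤ Real.exp (-(2 * c0 * E)) := by
      refine Real.exp_le_exp.mpr ?_
      have := mul_le_mul_of_nonneg_right hc1 (by linarith : (0 : ℝ) ≤ E)
      linarith
    have h6 : 9 * ((2 * K : ℕ) : ℝ) ^ 2 / z ≤ 36 * E * Real.exp (-(2 * c0 * E)) := by
      have h7 : 9 * ((2 * K : ℕ) : ℝ) ^ 2 = 36 * (K : ℝ) ^ 2 := by
        push_cast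
        ring
      rw [h7, div_le_iff₀ hzp]
      have h8 : (1 : ℝ) ≤ Real.exp (-(2 * c0 * E)) * z := by
        calc (1 : ℝ) = Real.exp (-(E : ℝ)) * Real.exp E := by
              rw [← Real.exp_add, neg_add_cancel, Real.exp_zero]
          _ ≤ Real.exp (-(2 * c0 * E)) * z := by
              refine mul_le_mul ?_ hzE (Real.exp_pos _).le (Real.exp_pos _).le
              refine Real.exp_le_exp.mpr ?_
              have := mul_le_mul_of_nonneg_right hc2 (by linarith : (0 : ℝ) ≤ E)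
              linarith
      calc 36 * (K : ℝ) ^ 2 ≤ 36 * E := hKsq
        _ = 36 * E * 1 := by ring
        _ ≤ 36 * E * (Real.exp (-(2 * c0 * E)) * z) :=
            mul_le_mul_of_nonneg_left h8 (by positivity)
        _ = 36 * E * Real.exp (-(2 * c0 * E)) * z := by ring
    calc (Real.exp (-(c * E)) + 9 * ((2 * K : ℕ) : ℝ) ^ 2 / z) * G
        ≤ (Real.exp (-(2 * c0 * E)) + 36 * E * Real.exp (-(2 * c0 * E))) * G :=
          mul_le_mul_of_nonneg_right (add_le_add h5 h6) hG0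
      _ = Real.exp (-(2 * c0 * E)) * ((1 + 36 * (E : ℝ)) * G) := by ring
      _ ≤ Real.exp (-(2 * c0 * E)) * Real.exp (c0 * E) :=
          mul_le_mul_of_nonneg_left hGE (Real.exp_pos _).le
      _ = Real.exp (-(c0 * E)) := by
          rw [← Real.exp_add]
          congr 1
          ring
  -- the sets
  set al : P → ℕ → ℝ := fun i r =>
    if i ∈ F then (if r ∈ SS z (z ^ (E / 16)) then 1 / (VM (E / 16) z * (Nat.totient r : ℝ))
      else 0)
    else (if r = 0 then 1 else if r ∈ LA z m (q * m) then ab m q z r else 0) with hal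
  set BB : Finset (Finset P) :=
    (univ : Finset (Finset P)).filter (fun B => F ⊆ B ∧ B.card ≤ 2 * K) with hBB
  have hSS0 : ∀ r, r ∈ SS z (z ^ (E / 16)) → r ≠ 0 := by
    intro r hr
    have := (mem_SS.mp hr).1.1
    omega
  have hLA0 : ∀ r, r ∈ LA z m (q * m) → r ≠ 0 := fun r hr =>
    hSS0 r (LA_sub hz0 hqm hr)
  have hlab : ∀ r ∈ T, ∀ i, r i = 0 ∨ r i ∈ SS z (z ^ (E / 16)) := by
    intro r hr i
    by_cases hi : i ∈ F
    · exact Or.inr (hT2 r hr i hi)
    · rcases hT1 r hr i hi with h5 | h5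
      · exact Or.inl h5
      · exact Or.inr (LA_sub hz0 hqm h5)
  have hV1 := VM_nonneg (E / 16) z
  have key := h2 P (fun i => (i : ℕ)) y z (z ^ (E / 16)) (z ^ (E / 4)) (2 * K) (NN x b) (XX x)
    (om y z) (Real.exp (-(c * E))) C (gg y z) T cc al BB hz3 (XX_nonneg x) (om_nonneg y z)
    (Real.exp_pos _).le hC hgg hlab ?_ ?_ ?_ ?_ ?_ ?_ ?_ ?_ ?_
  · refine key.trans ?_
    have hX2 : (z ^ (E / 16)) ^ 2 = z ^ (2 * (E / 16)) := by rw [← pow_mul, mul_comm]
    have hMA := (h4 z (2 * (E / 16)) hz3 (by omega)).2.2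
    rw [← hX2] at hMA
    set u : ℝ := 3 * C ^ 2 * ∑ e ∈ SS z ((z ^ (E / 16)) ^ 2), (3 : ℝ) ^ e.primeFactors.card / e
      with hu
    have hu0 : 0 ≤ u := by positivity
    have huL : u ≤ Lam := by
      rw [hu, hLam]
      exact mul_le_mul_of_nonneg_left hMA (by positivity)
    have ho := om_nonneg y z
    have hsum := sumBB F (2 * K) (om y z * u) (mul_nonneg ho hu0)
    have hnu : (Fintype.card P : ℝ) * (om y z * u) ≤ (E : ℝ) ^ 2 * Lam := by
      rw [Fintype.card_coe]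
      calc (P.card : ℝ) * (om y z * u) = (P.card : ℝ) * om y z * u := by ring
        _ ≤ (E : ℝ) ^ 2 * Lam := mul_le_mul hPA huL hu0 (by positivity)
    have hpw : (om y z * u) ^ F.card ≤ om y z ^ F.card * (1 + Lam) := by
      rw [mul_pow]
      refine mul_le_mul_of_nonneg_left ?_ (by positivity)
      rcases Nat.le_one_iff_eq_zero_or_eq_one.mp hF with h5 | h5 <;> rw [h5]
      · simp [hLam0]
      · rw [pow_one]
        linarith
    have hsum2 : ∑ B ∈ BB, (om y z * u) ^ B.card ≤ om y z ^ F.card * G := by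
      refine hsum.trans ?_
      have h8 : om y z ^ F.card * G = om y z ^ F.card * (1 + Lam) *
          (1 + (E : ℝ) ^ 2 * Lam) ^ (2 * K) := by
        rw [hG]
        ring
      rw [h8]
      refine mul_le_mul hpw ?_ (by positivity) (by positivity)
      exact pow_le_pow_left₀ (by positivity) (by linarith) _
    have hδ : 0 ≤ Real.exp (-(c * E)) + 9 * ((2 * K : ℕ) : ℝ) ^ 2 / z := by positivity
    calc XX x * (Real.exp (-(c * E)) + 9 * ((2 * K : ℕ) : ℝ) ^ 2 / z) *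
          ∑ B ∈ BB, (om y z * u) ^ B.card
        ≤ XX x * (Real.exp (-(c * E)) + 9 * ((2 * K : ℕ) : ℝ) ^ 2 / z) *
          (om y z ^ F.card * G) :=
          mul_le_mul_of_nonneg_left hsum2 (mul_nonneg (XX_nonneg x) hδ)
      _ = ((Real.exp (-(c * E)) + 9 * ((2 * K : ℕ) : ℝ) ^ 2 / z) * G) *
          (om y z ^ F.card * XX x) := by ring
      _ ≤ Real.exp (-(c0 * E)) * (om y z ^ F.card * XX x) :=
          mul_le_mul_of_nonneg_right hfin (mul_nonneg (by positivity) (XX_nonneg x))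
      _ = Real.exp (-(c0 * E)) * om y z ^ F.card * XX x := by ring
  · -- a label `1` only occurs on `F`
    intro r hr s hs i hi
    by_cases hiF : i ∈ F
    · exact hSS0 _ (hT2 s hs i hiF)
    · exfalso
      rcases hT1 r hr i hiF with h5 | h5
      · omega
      · have h6 := (mem_LA.mp h5).2
        have h7 : z ^ 1 ≤ z ^ m := Nat.pow_le_pow_right hz0 hm
        rw [pow_one] at h7
        omega
  · -- size
    intro r hr
    calc (∏ i, max 1 (r i)) ^ 2 ≤ (z ^ (2 * (E / 16))) ^ 2 := Nat.pow_le_pow_left (hT4 r hr) 2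
      _ = z ^ (2 * (E / 16) * 2) := by rw [← pow_mul]
      _ ≤ z ^ (E / 4) := Nat.pow_le_pow_right hz0 (by omega)
  · -- supports
    intro r hr s hs
    rw [hBB, Finset.mem_filter]
    refine ⟨Finset.mem_univ _, ?_, ?_⟩
    · intro i hi
      exact Finset.mem_filter.mpr ⟨Finset.mem_univ _, Or.inl (hSS0 _ (hT2 r hr i hi))⟩
    · rw [Finset.filter_or]
      refine (Finset.card_union_le _ _).trans ?_
      have h5 := hT3 r hr
      have h6 := hT3 s hs
      unfold nz at h5 h6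
      omega
  · intro B hB
    rw [hBB, Finset.mem_filter] at hB
    exact hB.2.2
  · -- nonnegativity
    intro i r
    rw [hal]
    have h5 := ab_nonneg m q z r
    simp only
    split_ifs <;> positivity
  · intro i
    rw [hal]
    simp only
    by_cases hi : i ∈ F
    · rw [if_pos hi, if_neg (fun h5 => hSS0 0 h5 rfl)]
      norm_num
    · rw [if_neg hi]
      simp
  · -- the coefficients
    intro r hr
    refine (hT5 r hr).trans (le_of_eq (Finset.prod_congr rfl fun i _ => ?_))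
    rw [hal]
    simp only
    by_cases hi : i ∈ F
    · rw [if_pos hi, if_pos hi, if_pos (hT2 r hr i hi)]
    · rw [if_neg hi, if_neg hi]
      rcases hT1 r hr i hi with h5 | h5
      · rw [if_pos h5, if_pos h5]
      · rw [if_neg (hLA0 _ h5), if_neg (hLA0 _ h5), if_pos h5]
  · -- divisor sums
    intro i d hd
    obtain ⟨hc1, hc2⟩ := hCB d hd
    by_cases hi : i ∈ F
    · have h5 : ∑ r ∈ (SS z (z ^ (E / 16))).filter (fun r => d ∣ r), al i r
          = 1 / VM (E / 16) z * ∑ r ∈ (SS z (z ^ (E / 16))).filter (fun r => d ∣ r),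
            1 / (Nat.totient r : ℝ) := by
        rw [Finset.mul_sum]
        refine Finset.sum_congr rfl fun r hr => ?_
        rw [hal]
        simp only
        rw [if_pos hi, if_pos (Finset.mem_filter.mp hr).1, one_div_mul_one_div]
      rw [h5]
      have h6 : ∑ r ∈ SS z (z ^ (E / 16)), 1 / (Nat.totient r : ℝ) = VM (E / 16) z := rfl
      rw [h6] at hc2
      rcases hV1.eq_or_lt with h7 | h7
      · rw [← h7]
        simp
        linarith
      · calc (d : ℝ) * (1 / VM (E / 16) z * ∑ r ∈ (SS z (z ^ (E / 16))).filter (fun r => d ∣ r),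
            1 / (Nat.totient r : ℝ))
            = ((d : ℝ) * ∑ r ∈ (SS z (z ^ (E / 16))).filter (fun r => d ∣ r),
            1 / (Nat.totient r : ℝ)) / VM (E / 16) z := by ring
          _ ≤ C * VM (E / 16) z / VM (E / 16) z := by gcongr
          _ = C := by field_simp
    · refine le_of_eq_of_le ?_ hc1
      congr 1
      have h5 : ∀ r ∈ (SS z (z ^ (E / 16))).filter (fun r => d ∣ r), al i r =
          if r ∈ LA z m (q * m) then ab m q z r else 0 := by
        intro r hr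
        rw [hal]
        simp only
        rw [if_neg hi, if_neg (hSS0 r (Finset.mem_filter.mp hr).1)]
      rw [Finset.sum_congr rfl h5, ← Finset.sum_filter]
      refine Finset.sum_congr ?_ fun _ _ => rfl
      ext r
      simp only [Finset.mem_filter]
      constructor
      · rintro ⟨⟨_, h7⟩, h8⟩
        exact ⟨h8, h7⟩
      · rintro ⟨h7, h8⟩
        exact ⟨⟨LA_sub hz0 hqm h7, h8⟩, h7⟩
  · -- counting
    intro d hd hD hdB
    rw [hBB, Finset.mem_filter] at hdB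
    refine tlc hP (fun B hB hBK d hd hD => ?_) d hd hD hdB.2.2
    exact hTL B hB ((Nat.pow_le_pow_left hBK 2).trans hK2) d hd hD

end Pool.Agent.Helper77.RR

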